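import Pool.Agent.W173.DR.Low

/-!
Lines and planes meeting a `p`-set with few directions.
-/

set_option autoImplicit false

open Polynomial Finset

namespace W173.DR

open H758R3.Dir

variable {p : ℕ} [Fact p.Prime]

/-- the directions from a point off a line to the points of the line -/
lemma fam {A D : Finset (Vec p)} (hD : Dirs A D) {a v x : Vec p} (hx : x ∈ A)
    (hxL : x ∉ Ln A a v) :
    ∃ E ⊆ D, E.card = (Ln A a v).card ∧
      ∀ e ∈ E, ∃ b ∈ Ln A a v, ∃ c : ZMod p, c ≠ 0 ∧ e = c • (x - b) := by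
  classical
  have hex : ∀ b ∈ Ln A a v, ∃ d ∈ D, ∃ c : ZMod p, c ≠ 0 ∧ d = c • (x - b) := by
    intro b hb
    apply hD.cov x hx b (mem_Ln.mp hb).1
    rintro rfl
    exact hxL hb
  choose! d hd c hc hdc using hex
  refine ⟨(Ln A a v).image d, ?_, ?_, ?_⟩
  · intro y hy
    obtain ⟨b, hb, rfl⟩ := Finset.mem_image.mp hy
    exact hd b hb
  · apply Finset.card_image_of_injOn
    intro b hb b' hb' hbb
    have hbb : d b = d b' := hbb
    rw [hdc b hb, hdc b' hb'] at hbb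
    by_cases hcc : c b = c b'
    · rw [hcc] at hbb
      have h1 := smul_right_injective (Vec p) (hc b' hb') hbb
      have h2 : x - b = x - b' := h1
      exact sub_right_injective h2
    · exfalso
      apply hxL
      obtain ⟨_, s, hs⟩ := mem_Ln.mp hb
      obtain ⟨_, s', hs'⟩ := mem_Ln.mp hb'
      rw [mem_Ln]
      have hne : c b - c b' ≠ 0 := sub_ne_zero.mpr hcc
      refine ⟨hx, (c b * s - c b' * s') / (c b - c b'), ?_⟩
      funext l
      have e1 := congrFun hbb l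
      have e2 := congrFun hs l
      have e3 := congrFun hs' l
      simp only [Pi.add_apply, Pi.smul_apply, Pi.sub_apply, smul_eq_mul] at *
      field_simp
      linear_combination e1 + c b * e2 - c b' * e3
  · intro e he
    obtain ⟨b, hb, rfl⟩ := Finset.mem_image.mp he
    exact ⟨b, hb, c b, hc b hb, hdc b hb⟩

lemma dot_Ln {A : Finset (Vec p)} {a v b φ : Vec p} (hφ : φ ⬝ᵥ v = 0) (hb : b ∈ Ln A a v) :
    φ ⬝ᵥ b = φ ⬝ᵥ a := by
  obtain ⟨_, t, rfl⟩ := mem_Ln.mp hb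
  rw [dotProduct_add, dotProduct_smul, hφ, smul_zero, add_zero]

/-- three planes through a rich line give many directions -/
lemma three_planes {A D : Finset (Vec p)} (hD : Dirs A D) {a v x1 x2 x3 φ ψ : Vec p}
    (h2 : 2 ≤ (Ln A a v).card) (hx1 : x1 ∈ A) (hx2 : x2 ∈ A) (hx3 : x3 ∈ A)
    (h1L : x1 ∉ Ln A a v) (hφv : φ ⬝ᵥ v = 0) (hφ1 : φ ⬝ᵥ x1 = φ ⬝ᵥ a) (hφ2 : φ ⬝ᵥ x2 ≠ φ ⬝ᵥ a)
    (hφ3 : φ ⬝ᵥ x3 ≠ φ ⬝ᵥ a) (hψv : ψ ⬝ᵥ v = 0) (hψ2 : ψ ⬝ᵥ x2 = ψ ⬝ᵥ a)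
    (hψ3 : ψ ⬝ᵥ x3 ≠ ψ ⬝ᵥ a) : 1 + 3 * (Ln A a v).card ≤ D.card := by
  classical
  have h2L : x2 ∉ Ln A a v := fun h => hφ2 (dot_Ln hφv h)
  have h3L : x3 ∉ Ln A a v := fun h => hφ3 (dot_Ln hφv h)
  obtain ⟨E1, hE1, c1, k1⟩ := fam hD hx1 h1L
  obtain ⟨E2, hE2, c2, k2⟩ := fam hD hx2 h2L
  obtain ⟨E3, hE3, c3, k3⟩ := fam hD hx3 h3L
  obtain ⟨b, hb, b', hb', hbb⟩ := Finset.one_lt_card.mp (by omega : 1 < (Ln A a v).card)
  obtain ⟨d0, hd0, c, hc, hdc⟩ := hD.cov b (mem_Ln.mp hb).1 b' (mem_Ln.mp hb').1 hbb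
  have hd0v : ∃ k : ZMod p, d0 = k • v := by
    obtain ⟨_, s, hs⟩ := mem_Ln.mp hb
    obtain ⟨_, s', hs'⟩ := mem_Ln.mp hb'
    refine ⟨c * (s - s'), ?_⟩
    rw [hdc, hs, hs']
    funext l
    simp only [Pi.add_apply, Pi.smul_apply, Pi.sub_apply, smul_eq_mul]
    ring
  obtain ⟨k, hk⟩ := hd0v
  -- values of the functionals
  have val : ∀ (E : Finset (Vec p)) (x θ : Vec p), θ ⬝ᵥ v = 0 →
      (∀ e ∈ E, ∃ b ∈ Ln A a v, ∃ c : ZMod p, c ≠ 0 ∧ e = c • (x - b)) →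
      ∀ e ∈ E, ∃ c : ZMod p, c ≠ 0 ∧ θ ⬝ᵥ e = c * (θ ⬝ᵥ x - θ ⬝ᵥ a) := by
    intro E x θ hθ hE e he
    obtain ⟨b, hb, c, hc, rfl⟩ := hE e he
    exact ⟨c, hc, by rw [dotProduct_smul, dotProduct_sub, dot_Ln hθ hb, smul_eq_mul]⟩
  have v1 := val E1 x1 φ hφv k1
  have v2 := val E2 x2 φ hφv k2
  have v3 := val E3 x3 φ hφv k3
  have w2 := val E2 x2 ψ hψv k2
  have w3 := val E3 x3 ψ hψv k3
  have z1 : ∀ e ∈ E1, φ ⬝ᵥ e = 0 := by
    intro e he
    obtain ⟨c, _, h⟩ := v1 e he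
    rw [h, hφ1, sub_self, mul_zero]
  have z2 : ∀ e ∈ E2, φ ⬝ᵥ e ≠ 0 := by
    intro e he
    obtain ⟨c, hc, h⟩ := v2 e he
    rw [h]
    exact mul_ne_zero hc (sub_ne_zero.mpr hφ2)
  have z3 : ∀ e ∈ E3, φ ⬝ᵥ e ≠ 0 := by
    intro e he
    obtain ⟨c, hc, h⟩ := v3 e he
    rw [h]
    exact mul_ne_zero hc (sub_ne_zero.mpr hφ3)
  have y2 : ∀ e ∈ E2, ψ ⬝ᵥ e = 0 := by
    intro e he
    obtain ⟨c, _, h⟩ := w2 e he
    rw [h, hψ2, sub_self, mul_zero]
  have y3 : ∀ e ∈ E3, ψ ⬝ᵥ e ≠ 0 := by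
    intro e he
    obtain ⟨c, hc, h⟩ := w3 e he
    rw [h]
    exact mul_ne_zero hc (sub_ne_zero.mpr hψ3)
  have hφd : φ ⬝ᵥ d0 = 0 := by rw [hk, dotProduct_smul, hφv, smul_zero]
  have n1 : d0 ∉ E1 := by
    intro h
    obtain ⟨b, hb, c, hc, he⟩ := k1 d0 h
    apply h1L
    obtain ⟨_, s, hs⟩ := mem_Ln.mp hb
    rw [mem_Ln]
    refine ⟨hx1, s + k / c, ?_⟩
    rw [hk] at he
    funext l
    have e1 := congrFun he l
    have e2 := congrFun hs l
    simp only [Pi.add_apply, Pi.smul_apply, Pi.sub_apply, smul_eq_mul] at *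
    field_simp
    linear_combination c * e2 - e1
  have n2 : d0 ∉ E2 := fun h => z2 _ h hφd
  have n3 : d0 ∉ E3 := fun h => z3 _ h hφd
  have d12 : Disjoint E1 E2 := Finset.disjoint_left.mpr fun e h h' => z2 e h' (z1 e h)
  have d13 : Disjoint E1 E3 := Finset.disjoint_left.mpr fun e h h' => z3 e h' (z1 e h)
  have d23 : Disjoint E2 E3 := Finset.disjoint_left.mpr fun e h h' => y3 e h' (y2 e h)
  have hc1 : (E1 ∪ (E2 ∪ E3)).card = 3 * (Ln A a v).card := by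
    rw [Finset.card_union_of_disjoint (Finset.disjoint_union_right.mpr ⟨d12, d13⟩),
      Finset.card_union_of_disjoint d23, c1, c2, c3]
    ring
  have hn : d0 ∉ E1 ∪ (E2 ∪ E3) := by
    simp only [Finset.mem_union, not_or]
    exact ⟨n1, n2, n3⟩
  have hsub : insert d0 (E1 ∪ (E2 ∪ E3)) ⊆ D := by
    intro x hx
    simp only [Finset.mem_insert, Finset.mem_union] at hx
    rcases hx with rfl | hx | hx | hx
    · exact hd0
    · exact hE1 hx
    · exact hE2 hx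
    · exact hE3 hx
  have := Finset.card_le_card hsub
  rw [Finset.card_insert_of_notMem hn, hc1] at this
  omega

/-- every line contains at most `K` points -/
lemma line_le {A D : Finset (Vec p)} (hD : Dirs A D) (hA : A.card = p) (hnp : NonPlanar A)
    (hDp : D.card ≤ p + 1) (K : ℕ) (hK1 : 1 ≤ K) (hKp : K < p) (hpK : p ≤ 3 * K + 2)
    (hM : ∀ k, 1 ≤ k → k ≤ K → ∀ u, M A k u = 0) {a v : Vec p} :
    (Ln A a v).card ≤ K := by
  classical
  by_contra hcon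
  push Not at hcon
  obtain ⟨φ0, hφ0, hφ0v, _⟩ := exists_orth2 v v
  obtain ⟨x1, hx1, hx1'⟩ : ∃ x ∈ A, φ0 ⬝ᵥ x ≠ φ0 ⬝ᵥ a := by
    by_contra hne
    push Not at hne
    exact hnp φ0 hφ0 ⟨φ0 ⬝ᵥ a, hne⟩
  obtain ⟨φ, hφ, hφv, hφa⟩ := exists_orth2 v (x1 - a)
  obtain ⟨x2, hx2, hx2'⟩ : ∃ x ∈ A, φ ⬝ᵥ x ≠ φ ⬝ᵥ a := by
    by_contra hne
    push Not at hne
    exact hnp φ hφ ⟨φ ⬝ᵥ a, hne⟩
  obtain ⟨ψ, hψ, hψv, hψa⟩ := exists_orth2 v (x2 - a)
  rw [dotProduct_sub, sub_eq_zero] at hφa hψa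
  have h1L : x1 ∉ Ln A a v := fun h => hx1' (dot_Ln hφ0v h)
  by_cases h3 : ∃ x3 ∈ A, φ ⬝ᵥ x3 ≠ φ ⬝ᵥ a ∧ ψ ⬝ᵥ x3 ≠ ψ ⬝ᵥ a
  · obtain ⟨x3, hx3, hx3φ, hx3ψ⟩ := h3
    have := three_planes hD (by omega) hx1 hx2 hx3 h1L hφv hφa hx2' hx3φ hψv hψa hx3ψ
    omega
  · push Not at h3
    have b1 := plane_bound A hA K hKp hM hnp φ hφ (φ ⬝ᵥ a)
    have b2 := plane_bound A hA K hKp hM hnp ψ hψ (ψ ⬝ᵥ a)
    set F1 := A.filter (fun x => φ ⬝ᵥ x ≠ φ ⬝ᵥ a) with hF1
    set F2 := A.filter (fun x => ψ ⬝ᵥ x ≠ ψ ⬝ᵥ a) with hF2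
    have d12 : Disjoint F1 F2 := by
      rw [Finset.disjoint_left]
      intro x h1 h2
      rw [hF1, Finset.mem_filter] at h1
      rw [hF2, Finset.mem_filter] at h2
      exact h2.2 (h3 x h1.1 h1.2)
    have d1 : Disjoint F1 (Ln A a v) := by
      rw [Finset.disjoint_left]
      intro x h1 h2
      rw [hF1, Finset.mem_filter] at h1
      exact h1.2 (dot_Ln hφv h2)
    have d2 : Disjoint F2 (Ln A a v) := by
      rw [Finset.disjoint_left]
      intro x h1 h2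
      rw [hF2, Finset.mem_filter] at h1
      exact h1.2 (dot_Ln hψv h2)
    have hsub : F1 ∪ (F2 ∪ Ln A a v) ⊆ A := by
      intro x hx
      simp only [Finset.mem_union] at hx
      rcases hx with hx | hx | hx
      · exact (Finset.mem_filter.mp hx).1
      · exact (Finset.mem_filter.mp hx).1
      · exact (mem_Ln.mp hx).1
    have h4 := Finset.card_le_card hsub
    rw [Finset.card_union_of_disjoint (Finset.disjoint_union_right.mpr ⟨d12, d1⟩),
      Finset.card_union_of_disjoint d2, hA] at h4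
    omega

/-- covering by planes avoiding a point -/
lemma cov_planes (a0 : Vec p) (S : Finset (Vec p)) (k : ℕ) (ha0 : a0 ∉ S)
    (h1 : ∀ v : Vec p, v ≠ 0 → ∀ J ⊆ S, (∀ x ∈ J, ∃ t : ZMod p, x = a0 + t • v) → J.card ≤ k)
    (h2 : ∀ φ : Vec p, φ ≠ 0 → ∀ J ⊆ S, (∀ x ∈ J, φ ⬝ᵥ x = φ ⬝ᵥ a0) → J.card ≤ 2 * k)
    (h3 : S.card ≤ 3 * k) :
    ∃ φ : Fin k → Vec p, ∀ x ∈ S, ∃ κ, φ κ ⬝ᵥ (x - a0) = 1 := by
  classical
  obtain ⟨c, hc1, hc2⟩ := cover (F := ZMod p) (fun a : Vec p => a - a0) k S (by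
    intro J hJ
    set W := Submodule.span (ZMod p) ((fun a : Vec p => a - a0) '' (J : Set (Vec p))) with hW
    have hmemW : ∀ a ∈ J, a - a0 ∈ W := by
      intro a ha
      apply Submodule.subset_span
      exact ⟨a, by exact_mod_cast ha, rfl⟩
    have hWle : Module.finrank (ZMod p) W ≤ 3 := by
      have := Submodule.finrank_le W
      simpa using this
    have ha0J : a0 ∉ J := fun h0 => ha0 (hJ h0)
    rcases (by omega : Module.finrank (ZMod p) W = 0 ∨ Module.finrank (ZMod p) W = 1 ∨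
      Module.finrank (ZMod p) W = 2 ∨ Module.finrank (ZMod p) W = 3) with hr | hr | hr | hr
    · rw [hr, mul_zero, Nat.le_zero, Finset.card_eq_zero, Finset.eq_empty_iff_forall_notMem]
      intro a ha
      have h1 : W = ⊥ := Submodule.finrank_eq_zero.mp hr
      have h2 := hmemW a ha
      rw [h1, Submodule.mem_bot] at h2
      rw [sub_eq_zero] at h2
      rw [h2] at ha
      exact ha0J ha
    · rw [hr, mul_one]
      obtain ⟨v, hv0, hv⟩ := finrank_eq_one_iff'.mp hr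
      apply h1 (v : Vec p) (by intro h6; apply hv0; exact Subtype.ext h6) J hJ
      intro x hx
      obtain ⟨t, ht⟩ := hv ⟨x - a0, hmemW x hx⟩
      refine ⟨t, ?_⟩
      have h3 := congrArg Subtype.val ht
      simp only [Submodule.coe_smul] at h3
      rw [h3]; abel
    · rw [hr]
      have hlt : W < ⊤ := by
        rw [lt_top_iff_ne_top]
        intro htop
        have h7 : Module.finrank (ZMod p) W = 3 := by
          rw [htop, finrank_top]; simp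
        omega
      obtain ⟨f, hf0, hf⟩ := Submodule.exists_le_ker_of_lt_top W hlt
      obtain ⟨φ, hφ⟩ := functional_dot f
      have hφ0 : φ ≠ 0 := by
        intro h0
        apply hf0
        ext x
        simp [hφ, h0]
      have := h2 φ hφ0 J hJ (by
        intro x hx
        have h8 : f (x - a0) = 0 := hf (hmemW x hx)
        rw [hφ, dotProduct_sub] at h8
        exact sub_eq_zero.mp h8)
      omega
    · rw [hr]
      have := Finset.card_le_card hJ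
      omega)
  have hex : ∀ κ : Fin k, ∃ φ : Vec p, ∀ e : (S.filter (fun e => κ ∈ c e)),
      φ ⬝ᵥ ((e : Vec p) - a0) = 1 := fun κ => exists_ones _ (hc2 κ)
  choose φ hφ using hex
  refine ⟨φ, ?_⟩
  intro x hx
  obtain ⟨κ, hκ⟩ := Finset.card_pos.mp (by rw [hc1 x hx]; omega : 0 < (c x).card)
  exact ⟨κ, hφ κ ⟨x, by rw [Finset.mem_filter]; exact ⟨hx, hκ⟩⟩⟩

/-- a covering by `k ≤ K` planes avoiding a point, and at most one more plane avoiding it, is
impossible -/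
lemma no_cover {A : Finset (Vec p)} (hA : A.card = p) (K : ℕ) (hKp : K < p)
    (hM : ∀ k, 1 ≤ k → k ≤ K → ∀ u, M A k u = 0) {a0 : Vec p} (ha0 : a0 ∈ A) (k : ℕ) (hk : k + 1 ≤ K)
    (φ : Fin k → Vec p) (ψ : Vec p) (c : ZMod p) (hψ : ψ ⬝ᵥ a0 ≠ c)
    (h : ∀ x ∈ A, x ≠ a0 → ψ ⬝ᵥ x = c ∨ ∃ κ, φ κ ⬝ᵥ (x - a0) = 1) : False := by
  classical
  have hm := moments A hA K hKp hM (τ := Fin k ⊕ Unit)
    (Sum.elim (fun κ => - φ κ) (fun _ => ψ)) (Sum.elim (fun κ => 1 + φ κ ⬝ᵥ a0) (fun _ => -c))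
    Finset.univ (by simp; omega)
  simp only [Fintype.prod_sum_type, Sum.elim_inl, Sum.elim_inr, Finset.univ_unique,
    Finset.prod_singleton] at hm
  rw [Finset.sum_eq_single a0] at hm
  · rw [Finset.prod_eq_one, one_mul] at hm
    · apply hψ
      linear_combination hm
    · intro κ _
      rw [neg_dotProduct]; ring
  · intro a ha haa
    rcases h a ha haa with h1 | ⟨κ, hκ⟩
    · rw [h1]; ring
    · rw [Finset.prod_eq_zero (Finset.mem_univ κ), zero_mul]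
      rw [dotProduct_sub] at hκ
      rw [neg_dotProduct]
      linear_combination -hκ
  · intro h0; exact absurd ha0 h0

/-- at least `2 K` points are off any plane -/
lemma off_plane {A D : Finset (Vec p)} (hD : Dirs A D) (hA : A.card = p) (hnp : NonPlanar A)
    (hDp : D.card ≤ p + 1) (K : ℕ) (hK1 : 1 ≤ K) (hKp : K < p) (hpK : p ≤ 3 * K + 2)
    (hM : ∀ k, 1 ≤ k → k ≤ K → ∀ u, M A k u = 0) (ψ : Vec p) (hψ : ψ ≠ 0) (c : ZMod p) :
    2 * K ≤ (A.filter (fun a => ψ ⬝ᵥ a ≠ c)).card := by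
  classical
  by_contra hcon
  push Not at hcon
  have hb := plane_bound A hA K hKp hM hnp ψ hψ c
  obtain ⟨a0, ha0⟩ := Finset.card_pos.mp (by omega : 0 < (A.filter (fun a => ψ ⬝ᵥ a ≠ c)).card)
  have ha0' := Finset.mem_filter.mp ha0
  have hline : ∀ {a v : Vec p}, (Ln A a v).card ≤ K := line_le hD hA hnp hDp K hK1 hKp hpK hM
  have hSc : ((A.filter (fun a => ψ ⬝ᵥ a ≠ c)).erase a0).card + 1 =
      (A.filter (fun a => ψ ⬝ᵥ a ≠ c)).card := Finset.card_erase_add_one ha0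
  obtain ⟨φ, hφ⟩ := cov_planes a0 ((A.filter (fun a => ψ ⬝ᵥ a ≠ c)).erase a0) (K - 1)
    (Finset.notMem_erase _ _)
    (by
      intro v hv J hJ hJv
      have hsub : insert a0 J ⊆ Ln A a0 v := by
        intro x hx
        rcases Finset.mem_insert.mp hx with rfl | hx
        · exact self_mem_Ln ha0'.1
        · rw [mem_Ln]
          exact ⟨(Finset.mem_filter.mp (Finset.mem_of_mem_erase (hJ hx))).1, hJv x hx⟩
      have h4 := Finset.card_le_card hsub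
      rw [Finset.card_insert_of_notMem (fun h => Finset.notMem_erase _ _ (hJ h))] at h4
      have := hline (a := a0) (v := v)
      omega)
    (by
      intro φ _ J hJ _
      have := Finset.card_le_card hJ
      omega)
    (by omega)
  apply no_cover hA K hKp hM ha0'.1 (K - 1) (by omega) φ ψ c ha0'.2
  intro x hx hxa
  by_cases hxc : ψ ⬝ᵥ x = c
  · exact Or.inl hxc
  · right
    exact hφ x (Finset.mem_erase.mpr ⟨hxa, Finset.mem_filter.mpr ⟨hx, hxc⟩⟩)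

end W173.DR
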