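import Pool.Agent.W173.DR.Core2

/-!
Vanishing of the low moments when there are at most `p + 1` directions (adapted from the starting
files `H758R3/DirMain1.lean` and `H758R3/DirMain2.lean`, where there are at most `p` directions).
-/

set_option autoImplicit false

open Polynomial Finset

namespace W173.DR

open H758R3.Dir

variable {p : ℕ} [Fact p.Prime]

/-- no functional kills all directions -/
lemma kill_le {A D : Finset (Vec p)} (hD : Dirs A D) (hA : A.card = p) (hnp : NonPlanar A)
    (hDp : D.card ≤ p + 1) {u : Vec p} (hu : u ≠ 0) : (kill D u).card ≤ p := by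
  classical
  have hp2 := (Fact.out : p.Prime).two_le
  have hsub : kill D u ⊆ D := Finset.filter_subset _ _
  by_contra hcon
  have h1 := Finset.card_le_card hsub
  have h2 : kill D u = D := Finset.eq_of_subset_of_card_le hsub (by omega)
  obtain ⟨a0, ha0⟩ := Finset.card_pos.mp (by omega : 0 < A.card)
  apply hnp u hu
  refine ⟨u ⬝ᵥ a0, ?_⟩
  intro a ha
  by_cases hne : a = a0
  · rw [hne]
  · obtain ⟨d, hd, c, hc, hdc⟩ := hD.cov a ha a0 ha0 hne
    rw [← h2, mem_kill, hdc, dotProduct_smul, dotProduct_sub] at hd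
    rcases mul_eq_zero.mp hd.2 with h3 | h3
    · exact absurd h3 hc
    · exact sub_eq_zero.mp h3

lemma exists_free2 {D : Finset (Vec p)} (hD0 : ∀ d ∈ D, d ≠ 0)
    {u0 : Vec p} (hu0 : u0 ≠ 0) (hDp : (kill D u0).card ≤ p) : ∃ u', Free D u0 u' := by
  classical
  obtain ⟨i, hi⟩ : ∃ i, u0 i ≠ 0 := by
    by_contra hcon
    push Not at hcon
    exact hu0 (funext hcon)
  set m1 : Vec p := Pi.single (i + 1) 1 with hm1
  set m2 : Vec p := Pi.single (i + 2) 1 with hm2
  have hm1d : ∀ d : Vec p, m1 ⬝ᵥ d = d (i + 1) := by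
    intro d; rw [hm1, single_dotProduct, one_mul]
  have hm2d : ∀ d : Vec p, m2 ⬝ᵥ d = d (i + 2) := by
    intro d; rw [hm2, single_dotProduct, one_mul]
  have hzero : ∀ d : Vec p, u0 ⬝ᵥ d = 0 → m1 ⬝ᵥ d = 0 → m2 ⬝ᵥ d = 0 → d = 0 := by
    intro d h0 h1 h2
    rw [hm1d] at h1
    rw [hm2d] at h2
    have h3 : u0 ⬝ᵥ d = u0 i * d i + u0 (i + 1) * d (i + 1) + u0 (i + 2) * d (i + 2) := by
      rw [dotProduct, Fin.sum_univ_three]
      fin_cases i <;> simp <;> ring
    rw [h1, h2, mul_zero, mul_zero, add_zero, add_zero, h0] at h3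
    have h4 : d i = 0 := by
      rcases mul_eq_zero.mp h3.symm with h5 | h5
      · exact absurd h5 hi
      · exact h5
    funext l
    fin_cases i <;> fin_cases l <;> simp_all
  -- pigeonhole
  obtain ⟨x, hx⟩ : ∃ x : Option (ZMod p), ∀ d ∈ kill D u0, mem m1 m2 x ⬝ᵥ d ≠ 0 := by
    by_contra hcon
    push Not at hcon
    choose f hf1 hf2 using hcon
    have hinj : Function.Injective f := by
      intro x y hxy
      have hd := mem_kill.mp (hf1 x)
      apply kill_unique (u1 := m1) (u2 := m2) (d := f x)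
      · rintro ⟨h1, h2⟩
        exact hD0 _ hd.1 (hzero _ hd.2 h1 h2)
      · exact hf2 x
      · rw [hxy]; exact hf2 y
    have h1 : (Finset.univ.image f).card ≤ (kill D u0).card := by
      apply Finset.card_le_card
      intro v hv
      obtain ⟨x, _, rfl⟩ := Finset.mem_image.mp hv
      exact hf1 x
    rw [Finset.card_image_of_injective _ hinj, Finset.card_univ, Fintype.card_option, ZMod.card] at h1
    omega
  refine ⟨mem m1 m2 x, ?_, ?_⟩
  · intro y
    have hcomp : (mem m1 m2 x) i = 0 := by
      rcases x with _ | x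
      · show m1 i = 0
        rw [hm1]
        fin_cases i <;> simp
      · show (x • m1 + m2) i = 0
        rw [hm1, hm2]
        fin_cases i <;> simp
    have hmne : mem m1 m2 x ≠ 0 := by
      intro h0
      rcases x with _ | x
      · have : m1 (i + 1) = 0 := by
          have h1 : m1 = 0 := h0
          rw [h1]; rfl
        rw [hm1, Pi.single_eq_same] at this
        exact one_ne_zero this
      · have h1 : (x • m1 + m2) (i + 2) = 0 := by
          have h1 : x • m1 + m2 = 0 := h0
          rw [h1]; rfl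
        rw [hm1, hm2] at h1
        fin_cases i <;> simp at h1
    rcases y with _ | y
    · exact hu0
    · intro h0
      have h1 : (y • u0 + mem m1 m2 x) i = 0 := by
        have h1 : y • u0 + mem m1 m2 x = 0 := h0
        rw [h1]; rfl
      rw [Pi.add_apply, hcomp, add_zero, Pi.smul_apply, smul_eq_mul] at h1
      have hy : y = 0 := by
        rcases mul_eq_zero.mp h1 with h2 | h2
        · exact h2
        · exact absurd h2 hi
      apply hmne
      have h2 : y • u0 + mem m1 m2 x = 0 := h0
      rw [hy, zero_smul, zero_add] at h2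
      exact h2
  · rintro d hd ⟨h1, h2⟩
    exact hx d (mem_kill.mpr ⟨hd, h1⟩) h2

theorem low_moments2 {A D : Finset (Vec p)} (hD : Dirs A D) (hA : A.card = p) (hnp : NonPlanar A)
    (hDp : D.card ≤ p + 1) (hD0 : ∀ d ∈ D, d ≠ 0) (h : ℕ) (hh2 : 2 ≤ h) (hp : p = 2 * h + 1) :
    ∃ K, K < h ∧ p ≤ 3 * K + 3 ∧ ∀ k, 1 ≤ k → k ≤ K → ∀ u, M A k u = 0 := by
  classical
  have hh : 1 ≤ h := by omega
  have hex : ∃ k, 1 ≤ k ∧ ∃ u, M A k u ≠ 0 := by
    obtain ⟨d, hd⟩ := D_nonempty hD hA
    obtain ⟨u, hu, hud⟩ := exists_nonzero_orth d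
    obtain ⟨k, hk1, _, hk3⟩ := gap_functional hD hA hnp h hh hp hu hd hud
    exact ⟨k, hk1, u, hk3⟩
  set j := Nat.find hex with hj
  obtain ⟨hj1, u0, hu0⟩ := Nat.find_spec hex
  rw [← hj] at hj1 hu0
  have hjmin : ∀ k, 1 ≤ k → k < j → ∀ u, M A k u = 0 := by
    intro k hk1 hk2 u
    by_contra hne
    exact Nat.find_min hex hk2 ⟨hk1, u, hne⟩
  have hjh : j ≤ h := by
    obtain ⟨d, hd⟩ := D_nonempty hD hA
    obtain ⟨u, hu, hud⟩ := exists_nonzero_orth d
    obtain ⟨k, hk1, hk2, hk3⟩ := gap_functional hD hA hnp h hh hp hu hd hud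
    exact (Nat.find_min' hex ⟨hk1, u, hk3⟩).trans hk2
  have hu0ne : u0 ≠ 0 := by
    intro h0
    apply hu0
    rw [h0, M]
    apply Finset.sum_eq_zero
    intro a _
    rw [zero_dotProduct, zero_pow (by omega)]
  obtain ⟨u', hfree⟩ := exists_free2 hD0 hu0ne (kill_le hD hA hnp hDp hu0ne)
  -- nonzero members
  set Z := Finset.univ.filter (fun x : Option (ZMod p) => M A j (mem u0 u' x) = 0) with hZ
  have hZc : Z.card ≤ j := pencil_zero A u0 u' j hj1 none hu0
  set Y := Finset.univ.filter (fun x : Option (ZMod p) => ¬ M A j (mem u0 u' x) = 0) with hY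
  have hYc : Z.card + Y.card = p + 1 := by
    have h4 := Finset.card_filter_add_card_filter_not (s := (Finset.univ : Finset (Option (ZMod p))))
      (fun x => M A j (mem u0 u' x) = 0)
    rw [Finset.card_univ, Fintype.card_option, ZMod.card] at h4
    exact h4
  have hkne : ∀ x ∈ Y, (kill D (mem u0 u' x)).Nonempty := by
    intro x hx
    by_contra hne
    rw [hY, Finset.mem_filter] at hx
    exact hx.2 (M_of_inj hA (injOn_of_kill hD (Finset.not_nonempty_iff_eq_empty.mp hne)) (by omega))
  obtain ⟨x, hxY, hxc⟩ : ∃ x ∈ Y, (kill D (mem u0 u' x)).card = 1 := by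
    by_contra hcon
    push Not at hcon
    have h1 : ∀ x ∈ Y, 2 ≤ (kill D (mem u0 u' x)).card := by
      intro x hx
      have h2 := hcon x hx
      have h3 := Finset.card_pos.mpr (hkne x hx)
      omega
    have h2 : Y.card • 2 ≤ ∑ x ∈ Y, (kill D (mem u0 u' x)).card := Finset.card_nsmul_le_sum _ _ _ h1
    have h3 : ∑ x ∈ Y, (kill D (mem u0 u' x)).card ≤ ∑ x : Option (ZMod p), (kill D (mem u0 u' x)).card :=
      Finset.sum_le_sum_of_subset (Finset.subset_univ _)
    have h4 := sum_kill hfree
    rw [smul_eq_mul] at h2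
    omega
  obtain ⟨d0, hd0⟩ := Finset.card_eq_one.mp hxc
  set u1 := mem u0 u' x with hu1
  have hd0D : d0 ∈ D := by
    have : d0 ∈ kill D u1 := by rw [hd0]; exact Finset.mem_singleton_self _
    exact (mem_kill.mp this).1
  have hd0u1 : u1 ⬝ᵥ d0 = 0 := by
    have : d0 ∈ kill D u1 := by rw [hd0]; exact Finset.mem_singleton_self _
    exact (mem_kill.mp this).2
  have hM1 : M A j u1 ≠ 0 := by
    rw [hY, Finset.mem_filter] at hxY
    exact hxY.2
  obtain ⟨u2, hu2d, hu2⟩ := exists_u2 u1 d0 (hD0 d0 hd0D)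
  obtain ⟨i, hi⟩ : ∃ i, d0 i ≠ 0 := by
    by_contra hcon
    push Not at hcon
    exact hD0 d0 hd0D (funext hcon)
  set u3 : Vec p := Pi.single i 1 with hu3
  have hu3d : ∀ d : Vec p, u3 ⬝ᵥ d = d i := by
    intro d; rw [hu3, single_dotProduct, one_mul]
  have herase : (D.erase d0).card + 1 = D.card := Finset.card_erase_add_one hd0D
  have hcomb : ∀ (u v w : ZMod p) (d : Vec p), (u • u1 + v • u2 + w • u3) ⬝ᵥ d =
      u * (u1 ⬝ᵥ d) + v * (u2 ⬝ᵥ d) + w * (u3 ⬝ᵥ d) := by
    intro u v w d
    simp [add_dotProduct, smul_dotProduct]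
  have hcore := core2 (p := p) (D.erase d0) A (fun d => u1 ⬝ᵥ d) (fun d => u2 ⬝ᵥ d) (fun d => u3 ⬝ᵥ d)
    (fun a => u1 ⬝ᵥ a) (fun a => u2 ⬝ᵥ a) (fun a => u3 ⬝ᵥ a) j h hp hh2 hj1 hjh (by omega)
    (by
      intro d hd h0
      rw [Finset.mem_erase] at hd
      have : d ∈ kill D u1 := mem_kill.mpr ⟨hd.2, h0⟩
      rw [hd0, Finset.mem_singleton] at this
      exact hd.1 this)
    (by
      intro u v w hw
      by_cases hprod : ∏ d ∈ D.erase d0, (u * (u1 ⬝ᵥ d) + v * (u2 ⬝ᵥ d) + w * (u3 ⬝ᵥ d)) = 0
      · rw [hprod, zero_mul]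
      · have hk : kill D (u • u1 + v • u2 + w • u3) = ∅ := by
          rw [Finset.eq_empty_iff_forall_notMem]
          intro d hd
          rw [mem_kill, hcomb] at hd
          by_cases hdd : d = d0
          · rw [hdd, hd0u1, hu2d, hu3d, mul_zero, mul_zero, zero_add, zero_add] at hd
            rcases mul_eq_zero.mp hd.2 with h3 | h3
            · exact hw h3
            · exact hi h3
          · exact hprod (Finset.prod_eq_zero (Finset.mem_erase.mpr ⟨hdd, hd.1⟩) hd.2)
        have hM := M_of_inj hA (injOn_of_kill hD hk) (k := j) (by omega)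
        rw [M] at hM
        have : ∑ a ∈ A, (u * (u1 ⬝ᵥ a) + v * (u2 ⬝ᵥ a) + w * (u3 ⬝ᵥ a)) ^ j = 0 := by
          rw [← hM]
          apply Finset.sum_congr rfl
          intro a _
          rw [hcomb]
        rw [this, mul_zero])
    hM1
  rcases hcore with hc | ⟨x0, hx0⟩
  · refine ⟨j - 1, by omega, by omega, ?_⟩
    intro k hk1 hk2 u
    exact hjmin k hk1 (by omega) u
  · exfalso
    set us : Vec p := x0 • u1 + u2 with hus
    have husne : us ≠ 0 := hu2 x0
    have husd : ∀ d, us ⬝ᵥ d = x0 * (u1 ⬝ᵥ d) + u2 ⬝ᵥ d := by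
      intro d; rw [hus, add_dotProduct, smul_dotProduct, smul_eq_mul]
    have hkc : p - j + 1 ≤ (kill D us).card := by
      have hsub : insert d0 ((D.erase d0).filter (fun d => x0 * (u1 ⬝ᵥ d) + u2 ⬝ᵥ d = 0)) ⊆ kill D us := by
        intro d hd
        rw [Finset.mem_insert] at hd
        rw [mem_kill, husd]
        rcases hd with rfl | hd
        · refine ⟨hd0D, ?_⟩
          rw [hd0u1, hu2d, mul_zero, add_zero]
        · rw [Finset.mem_filter] at hd
          exact ⟨Finset.mem_of_mem_erase hd.1, hd.2⟩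
      have h1 := Finset.card_le_card hsub
      rw [Finset.card_insert_of_notMem] at h1
      · have hx0' : p - j ≤ ((D.erase d0).filter (fun d => x0 * (u1 ⬝ᵥ d) + u2 ⬝ᵥ d = 0)).card := by
          convert hx0
        omega
      · intro h2
        rw [Finset.mem_filter] at h2
        exact Finset.notMem_erase _ _ h2.1
    obtain ⟨u'', hfree2⟩ := exists_free2 hD0 husne (kill_le hD hA hnp hDp husne)
    have h1 := pencil_noninj hD hA hnp h hh hp hfree2
    have h2 := sum_kill hfree2
    rw [Fintype.sum_option] at h2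
    have h3 : (Finset.univ.filter (fun x : Option (ZMod p) => (kill D (mem us u'' x)).Nonempty)).card
        ≤ 1 + (Finset.univ.filter (fun x : ZMod p => (kill D (mem us u'' (some x))).Nonempty)).card := by
      have hsub : Finset.univ.filter (fun x : Option (ZMod p) => (kill D (mem us u'' x)).Nonempty) ⊆
          insert none ((Finset.univ.filter
            (fun x : ZMod p => (kill D (mem us u'' (some x))).Nonempty)).image some) := by
        intro y hy
        rw [Finset.mem_filter] at hy
        rcases y with _ | y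
        · exact Finset.mem_insert_self _ _
        · apply Finset.mem_insert_of_mem
          apply Finset.mem_image_of_mem
          rw [Finset.mem_filter]
          exact ⟨Finset.mem_univ _, hy.2⟩
      have h4 := Finset.card_le_card hsub
      have h5 := Finset.card_insert_le none ((Finset.univ.filter
            (fun x : ZMod p => (kill D (mem us u'' (some x))).Nonempty)).image some)
      have h6 := Finset.card_image_le (s := (Finset.univ.filter
            (fun x : ZMod p => (kill D (mem us u'' (some x))).Nonempty))) (f := (some : ZMod p → Option (ZMod p)))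
      omega
    have h4 : (Finset.univ.filter (fun x : ZMod p => (kill D (mem us u'' (some x))).Nonempty)).card ≤
        ∑ x : ZMod p, (kill D (mem us u'' (some x))).card := by
      rw [Finset.card_filter]
      apply Finset.sum_le_sum
      intro y _
      split_ifs with hy
      · exact Finset.card_pos.mpr hy
      · exact Nat.zero_le _
    have h5 : (kill D (mem us u'' none)).card = (kill D us).card := rfl
    rw [h5] at h2
    omega

end W173.DR
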