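import Pool.Agent.W173.DR.Geo

/-!
A `p`-set of `F_p^3` which is not contained in a plane determines at least `p + 2` directions.
-/

set_option autoImplicit false

open Polynomial Finset

namespace W173.DR

open H758R3.Dir

variable {p : ℕ} [Fact p.Prime]

lemma four_coplanar {A D : Finset (Vec p)} (hD : Dirs A D) (hA : A.card = p) (hp5 : 5 ≤ p)
    (hDp : D.card ≤ p + 1) :
    ∃ φ : Vec p, φ ≠ 0 ∧ ∃ c : ZMod p, 4 ≤ (A.filter (fun a => φ ⬝ᵥ a = c)).card := by
  classical
  have hex : ∀ q ∈ A.offDiag, ∃ d ∈ D, ∃ c : ZMod p, c ≠ 0 ∧ d = c • (q.1 - q.2) := by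
    intro q hq
    rw [Finset.mem_offDiag] at hq
    exact hD.cov q.1 hq.1 q.2 hq.2.1 hq.2.2
  choose! d hd c hc hdc using hex
  have hcard : D.card * 2 < A.offDiag.card := by
    rw [Finset.offDiag_card, hA]
    have h1 : D.card * 2 ≤ (p + 1) * 2 := Nat.mul_le_mul_right _ hDp
    have h2 : 5 * p ≤ p * p := Nat.mul_le_mul_right _ hp5
    omega
  obtain ⟨y, hy, hfib⟩ := Finset.exists_lt_card_fiber_of_mul_lt_card_of_maps_to hd hcard
  set F := A.offDiag.filter (fun q => d q = y) with hF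
  obtain ⟨⟨a, b⟩, hab⟩ := Finset.card_pos.mp (by omega : 0 < F.card)
  obtain ⟨⟨x, z⟩, hxz⟩ : ∃ q, q ∈ F \ {(a, b), (b, a)} := by
    apply Finset.card_pos.mp
    have h1 := Finset.le_card_sdiff ({(a, b), (b, a)} : Finset (Vec p × Vec p)) F
    have h2 : ({(a, b), (b, a)} : Finset (Vec p × Vec p)).card ≤ 2 := Finset.card_le_two
    omega
  rw [Finset.mem_sdiff] at hxz
  obtain ⟨hxz, hnot⟩ := hxz
  rw [Finset.mem_insert, Finset.mem_singleton, not_or, Prod.mk.injEq, Prod.mk.injEq] at hnot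
  obtain ⟨hnot1, hnot2⟩ := hnot
  rw [hF, Finset.mem_filter] at hab hxz
  have e1 := hdc _ hab.1
  have e2 := hdc _ hxz.1
  have c2 := hc _ hxz.1
  rw [hab.2] at e1
  rw [hxz.2] at e2
  simp only at e1 e2
  have hab1 := Finset.mem_offDiag.mp hab.1
  have hxz1 := Finset.mem_offDiag.mp hxz.1
  simp only at hab1 hxz1
  obtain ⟨haA, hbA, hne⟩ := hab1
  obtain ⟨hxA, hzA, hne'⟩ := hxz1
  -- a functional killing `a - b` kills `x - z`
  have hpar : ∀ φ : Vec p, φ ⬝ᵥ (a - b) = 0 → φ ⬝ᵥ b = φ ⬝ᵥ a ∧ φ ⬝ᵥ z = φ ⬝ᵥ x := by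
    intro φ hφ
    constructor
    · rw [dotProduct_sub, sub_eq_zero] at hφ; exact hφ.symm
    · have h1 : φ ⬝ᵥ (c (a, b) • (a - b)) = φ ⬝ᵥ (c (x, z) • (x - z)) := by rw [← e1, ← e2]
      rw [dotProduct_smul, dotProduct_smul, hφ, smul_zero, smul_eq_mul] at h1
      rcases mul_eq_zero.mp h1.symm with h2 | h2
      · exact absurd h2 c2
      · rw [dotProduct_sub, sub_eq_zero] at h2; exact h2.symm
  by_cases hall : x ≠ a ∧ x ≠ b ∧ z ≠ a ∧ z ≠ b
  · obtain ⟨n1, n2, n3, n4⟩ := hall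
    obtain ⟨φ, hφ, hφ1, hφ2⟩ := exists_orth2 (a - b) (a - x)
    obtain ⟨k1, k2⟩ := hpar φ hφ1
    rw [dotProduct_sub, sub_eq_zero] at hφ2
    refine ⟨φ, hφ, φ ⬝ᵥ a, ?_⟩
    have hsub : ({a, b, x, z} : Finset (Vec p)) ⊆ A.filter (fun y => φ ⬝ᵥ y = φ ⬝ᵥ a) := by
      intro y hy
      simp only [Finset.mem_insert, Finset.mem_singleton] at hy
      rw [Finset.mem_filter]
      rcases hy with rfl | rfl | rfl | rfl
      · exact ⟨haA, rfl⟩
      · exact ⟨hbA, k1⟩
      · exact ⟨hxA, hφ2.symm⟩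
      · exact ⟨hzA, k2.trans hφ2.symm⟩
    have h4 : ({a, b, x, z} : Finset (Vec p)).card = 4 := by
      rw [Finset.card_insert_of_notMem, Finset.card_insert_of_notMem, Finset.card_insert_of_notMem,
        Finset.card_singleton]
      · simpa using hne'
      · simp only [Finset.mem_insert, Finset.mem_singleton, not_or]
        exact ⟨n2.symm, n4.symm⟩
      · simp only [Finset.mem_insert, Finset.mem_singleton, not_or]
        exact ⟨hne, n1.symm, n3.symm⟩
    rw [← h4]
    exact Finset.card_le_card hsub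
  · -- three collinear points
    obtain ⟨w, hwA, hwa, hwb, hw⟩ : ∃ w ∈ A, w ≠ a ∧ w ≠ b ∧
        ∀ φ : Vec p, φ ⬝ᵥ (a - b) = 0 → φ ⬝ᵥ w = φ ⬝ᵥ a := by
      by_cases h1 : x = a
      · refine ⟨z, hzA, ?_, ?_, ?_⟩
        · intro h; exact hne' (by rw [h1, h])
        · intro h; exact hnot1 ⟨h1, h⟩
        · intro φ hφ; rw [(hpar φ hφ).2, h1]
      · by_cases h2 : x = b
        · refine ⟨z, hzA, ?_, ?_, ?_⟩
          · intro h; exact hnot2 ⟨h2, h⟩
          · intro h; exact hne' (by rw [h2, h])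
          · intro φ hφ; rw [(hpar φ hφ).2, h2]; exact (hpar φ hφ).1
        · refine ⟨x, hxA, h1, h2, ?_⟩
          intro φ hφ
          by_cases h3 : z = a
          · rw [← (hpar φ hφ).2, h3]
          · by_cases h4 : z = b
            · rw [← (hpar φ hφ).2, h4]; exact (hpar φ hφ).1
            · exact absurd ⟨h1, h2, h3, h4⟩ hall
    have h3 : ({a, b, w} : Finset (Vec p)).card = 3 := by
      rw [Finset.card_insert_of_notMem, Finset.card_insert_of_notMem, Finset.card_singleton]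
      · simpa using hwb.symm
      · simp only [Finset.mem_insert, Finset.mem_singleton, not_or]
        exact ⟨hne, hwa.symm⟩
    obtain ⟨u, hu⟩ : ∃ u, u ∈ A \ {a, b, w} := by
      apply Finset.card_pos.mp
      have h1 := Finset.le_card_sdiff ({a, b, w} : Finset (Vec p)) A
      omega
    rw [Finset.mem_sdiff] at hu
    obtain ⟨φ, hφ, hφ1, hφ2⟩ := exists_orth2 (a - b) (a - u)
    rw [dotProduct_sub, sub_eq_zero] at hφ2
    refine ⟨φ, hφ, φ ⬝ᵥ a, ?_⟩
    have hsub : insert u ({a, b, w} : Finset (Vec p)) ⊆ A.filter (fun y => φ ⬝ᵥ y = φ ⬝ᵥ a) := by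
      intro y hy
      simp only [Finset.mem_insert, Finset.mem_singleton] at hy
      rw [Finset.mem_filter]
      rcases hy with rfl | rfl | rfl | rfl
      · exact ⟨hu.1, hφ2.symm⟩
      · exact ⟨haA, rfl⟩
      · exact ⟨hbA, (hpar φ hφ1).1⟩
      · exact ⟨hwA, hw φ hφ1⟩
    have h4 := Finset.card_le_card hsub
    rw [Finset.card_insert_of_notMem hu.2, h3] at h4
    exact h4

/-- a covering by `k ≤ K` planes avoiding a point is impossible -/
lemma no_cover' {A : Finset (Vec p)} (hA : A.card = p) (K : ℕ) (hKp : K < p)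
    (hM : ∀ k, 1 ≤ k → k ≤ K → ∀ u, M A k u = 0) {a0 : Vec p} (ha0 : a0 ∈ A)
    (φ : Fin K → Vec p) (h : ∀ x ∈ A, x ≠ a0 → ∃ κ, φ κ ⬝ᵥ (x - a0) = 1) : False := by
  classical
  have hm := moments A hA K hKp hM (fun κ : Fin K => - φ κ) (fun κ => 1 + φ κ ⬝ᵥ a0)
    Finset.univ (by simp)
  rw [Finset.sum_eq_single a0] at hm
  · rw [Finset.prod_eq_one] at hm
    · exact one_ne_zero hm
    · intro κ _
      rw [neg_dotProduct]; ring
  · intro a ha haa
    obtain ⟨κ, hκ⟩ := h a ha haa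
    apply Finset.prod_eq_zero (Finset.mem_univ κ)
    rw [dotProduct_sub] at hκ
    rw [neg_dotProduct]
    linear_combination -hκ
  · intro h0; exact absurd ha0 h0

theorem main2 {A D : Finset (Vec p)} (hD : Dirs A D) (hA : A.card = p) (hnp : NonPlanar A)
    (hDp : D.card ≤ p + 1) (hD0 : ∀ d ∈ D, d ≠ 0) : False := by
  classical
  have hpr := (Fact.out : p.Prime)
  have hp2 := hpr.two_le
  by_cases hp3 : p ≤ 3
  · -- at most three points
    obtain ⟨a, ha⟩ := Finset.card_pos.mp (by omega : 0 < A.card)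
    obtain ⟨b, hb⟩ : ∃ b, b ∈ A.erase a := by
      apply Finset.card_pos.mp
      rw [Finset.card_erase_of_mem ha]; omega
    have hab := Finset.mem_erase.mp hb
    have hrest : ((A.erase a).erase b).card ≤ 1 := by
      rw [Finset.card_erase_of_mem hb, Finset.card_erase_of_mem ha]; omega
    obtain ⟨w, hw⟩ : ∃ w, ∀ x ∈ (A.erase a).erase b, x = w := by
      rcases Finset.eq_empty_or_nonempty ((A.erase a).erase b) with h0 | ⟨w, hw⟩
      · exact ⟨0, by rw [h0]; intro x hx; simp at hx⟩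
      · refine ⟨w, fun x hx => ?_⟩
        exact Finset.card_le_one.mp hrest x hx w hw
    obtain ⟨φ, hφ, hφ1, hφ2⟩ := exists_orth2 (b - a) (w - a)
    rw [dotProduct_sub, sub_eq_zero] at hφ1 hφ2
    refine hnp φ hφ ⟨φ ⬝ᵥ a, fun x hx => ?_⟩
    by_cases h1 : x = a
    · rw [h1]
    · by_cases h2 : x = b
      · rw [h2, hφ1]
      · have := hw x (Finset.mem_erase.mpr ⟨h2, Finset.mem_erase.mpr ⟨h1, hx⟩⟩)
        rw [this, hφ2]
  · have hp4 : p ≠ 4 := by rintro rfl; revert hpr; decide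
    have hp5 : 5 ≤ p := by omega
    have hodd : p % 2 = 1 := by
      rcases hpr.eq_two_or_odd with h | h
      · omega
      · exact h
    obtain ⟨h, hp⟩ : ∃ h, p = 2 * h + 1 := ⟨p / 2, by omega⟩
    have hh : 2 ≤ h := by omega
    obtain ⟨K, hKh, hK3, hM⟩ := low_moments2 hD hA hnp hDp hD0 h hh hp
    have hne3 : p ≠ 3 * K + 3 := by
      intro h3
      have : 3 ∣ p := ⟨K + 1, by omega⟩
      have := (Nat.prime_dvd_prime_iff_eq Nat.prime_three hpr).mp this
      omega
    have hpK : p ≤ 3 * K + 2 := by omega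
    have hK1 : 1 ≤ K := by omega
    have hKp : K < p := by omega
    have hline : ∀ {a v : Vec p}, (Ln A a v).card ≤ K := line_le hD hA hnp hDp K hK1 hKp hpK hM
    have hoff : ∀ ψ : Vec p, ψ ≠ 0 → ∀ c : ZMod p, ∃ F : Finset (Vec p),
        (∀ a, a ∈ F ↔ a ∈ A ∧ ψ ⬝ᵥ a ≠ c) ∧ 2 * K ≤ F.card := fun ψ hψ c =>
      ⟨_, fun a => Finset.mem_filter, off_plane hD hA hnp hDp K hK1 hKp hpK hM ψ hψ c⟩
    -- the plane section
    have hsec : ∀ φ : Vec p, φ ≠ 0 → ∀ c, ∀ F ⊆ A, (∀ x ∈ F, φ ⬝ᵥ x = c) → F.card + 2 * K ≤ p := by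
      intro φ hφ c F hFA hF
      obtain ⟨G, hG, h1⟩ := hoff φ hφ c
      have h2 : F ∪ G ⊆ A := Finset.union_subset hFA (fun x hx => ((hG x).mp hx).1)
      have h3 : Disjoint F G := by
        rw [Finset.disjoint_left]
        intro x hx hx'
        exact ((hG x).mp hx').2 (hF x hx)
      have h4 := Finset.card_le_card h2
      rw [Finset.card_union_of_disjoint h3, hA] at h4
      omega
    have hlineJ : ∀ a0 ∈ A, ∀ J ⊆ A, a0 ∉ J → ∀ v : Vec p, (∀ x ∈ J, ∃ t : ZMod p, x = a0 + t • v) →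
        J.card + 1 ≤ K := by
      intro a0 ha0 J hJ haJ v hJv
      have hsub : insert a0 J ⊆ Ln A a0 v := by
        intro x hx
        rcases Finset.mem_insert.mp hx with rfl | hx
        · exact self_mem_Ln ha0
        · rw [mem_Ln]
          exact ⟨hJ hx, hJv x hx⟩
      have h4 := Finset.card_le_card hsub
      rw [Finset.card_insert_of_notMem haJ] at h4
      exact h4.trans hline
    have hplaneJ : ∀ a0 ∈ A, ∀ J ⊆ A, a0 ∉ J → ∀ φ : Vec p, φ ≠ 0 → (∀ x ∈ J, φ ⬝ᵥ x = φ ⬝ᵥ a0) →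
        J.card + 1 + 2 * K ≤ p := by
      intro a0 ha0 J hJ haJ φ hφ hJφ
      have := hsec φ hφ (φ ⬝ᵥ a0) (insert a0 J) (Finset.insert_subset ha0 hJ) (by
        intro x hx
        rcases Finset.mem_insert.mp hx with rfl | hx
        · rfl
        · exact hJφ x hx)
      rw [Finset.card_insert_of_notMem haJ] at this
      omega
    by_cases hcase : p ≤ 3 * K + 1
    · obtain ⟨a0, ha0⟩ := Finset.card_pos.mp (by omega : 0 < A.card)
      have hSc : (A.erase a0).card + 1 = A.card := Finset.card_erase_add_one ha0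
      have hsubA : A.erase a0 ⊆ A := Finset.erase_subset _ _
      obtain ⟨φ, hφ⟩ := cov_planes a0 (A.erase a0) K (Finset.notMem_erase _ _)
        (by
          intro v _ J hJ hJv
          have := hlineJ a0 ha0 J (hJ.trans hsubA) (fun h => Finset.notMem_erase _ _ (hJ h)) v hJv
          omega)
        (by
          intro φ hφ J hJ hJφ
          have := hplaneJ a0 ha0 J (hJ.trans hsubA) (fun h => Finset.notMem_erase _ _ (hJ h)) φ hφ hJφ
          omega)
        (by omega)
      apply no_cover' hA K hKp hM ha0 φ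
      intro x hx hxa
      exact hφ x (Finset.mem_erase.mpr ⟨hxa, hx⟩)
    · have hpe : p = 3 * K + 2 := by omega
      obtain ⟨ψ, hψ, c, h4'⟩ := four_coplanar hD hA hp5 hDp
      obtain ⟨G, hG, h4⟩ : ∃ G : Finset (Vec p), (∀ a, a ∈ G ↔ a ∈ A ∧ ψ ⬝ᵥ a = c) ∧ 4 ≤ G.card :=
        ⟨_, fun a => Finset.mem_filter, h4'⟩
      have h5 := hsec ψ hψ c G (fun x hx => ((hG x).mp hx).1) (fun x hx => ((hG x).mp hx).2)
      have hK2 : K ≠ 2 := by
        intro h2
        rw [h2] at hpe
        have h8 : p = 8 := by omega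
        rw [h8] at hpr
        exact absurd hpr (by decide)
      have hK3 : 3 ≤ K := by omega
      obtain ⟨F, hF, hFc⟩ := hoff ψ hψ c
      obtain ⟨a0, ha0⟩ := Finset.card_pos.mp (by omega : 0 < F.card)
      have ha0' := (hF a0).mp ha0
      have h6 : G.card + F.card ≤ p := by
        have hd : Disjoint G F := by
          rw [Finset.disjoint_left]
          intro x hx hx'
          exact ((hF x).mp hx').2 ((hG x).mp hx).2
        have h7 := Finset.card_le_card (Finset.union_subset (fun x hx => ((hG x).mp hx).1)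
          (fun x hx => ((hF x).mp hx).1) : G ∪ F ⊆ A)
        rw [Finset.card_union_of_disjoint hd] at h7
        omega
      have hSc : (F.erase a0).card + 1 = F.card := Finset.card_erase_add_one ha0
      have hsubA : F.erase a0 ⊆ A :=
        (Finset.erase_subset _ _).trans (fun x hx => ((hF x).mp hx).1)
      obtain ⟨φ, hφ⟩ := cov_planes a0 (F.erase a0) (K - 1) (Finset.notMem_erase _ _)
        (by
          intro v _ J hJ hJv
          have := hlineJ a0 ha0'.1 J (hJ.trans hsubA) (fun h => Finset.notMem_erase _ _ (hJ h)) v hJv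
          omega)
        (by
          intro φ hφ J hJ hJφ
          have := hplaneJ a0 ha0'.1 J (hJ.trans hsubA) (fun h => Finset.notMem_erase _ _ (hJ h)) φ hφ
            hJφ
          omega)
        (by omega)
      apply no_cover hA K hKp hM ha0'.1 (K - 1) (by omega) φ ψ c ha0'.2
      intro x hx hxa
      by_cases hxc : ψ ⬝ᵥ x = c
      · exact Or.inl hxc
      · right
        exact hφ x (Finset.mem_erase.mpr ⟨hxa, (hF x).mpr ⟨hx, hxc⟩⟩)

end W173.DR
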